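import Pool.Agent.W657.DX.FIN2
import Pool.Agent.W443.DX.Stm4

/-!
Project DX, part 3: the theorem in coordinates, from its parts.
-/

set_option autoImplicit false

open MvPolynomial Pool.Agent.H88R2.DC Pool.Agent.W443.DX Pool.Agent.W657.DX

namespace Pool.Agent.W800.DX

/-- the coefficients of a polynomial -/
noncomputable def c1 {K : Type} [Field K] (A : MvPolynomial (Fin 2) K) : Finset K := by
  classical exact A.support.image fun m => coeff m A

theorem mem_c1 {K : Type} [Field K] (A : MvPolynomial (Fin 2) K)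
    (m : Fin 2 →₀ ℕ) (hm : m ∈ A.support) : coeff m A ∈ c1 A := by
  classical
  unfold c1
  exact Finset.mem_image.2 ⟨m, hm, rfl⟩

theorem fin3 (h1 : S_GEN) (h2 : S_TWO) (h3 : S_RMP) (h4 : S_MOD3) (h5 : S_EVM) : S_FIN3 := by
  classical
  intro K _ _ F wF hdep
  obtain ⟨u, α, β, γ, hα, hrel⟩ := h2 K (nf K (F 0)) (nf K (F 1)) wF hdep
  obtain ⟨d, hd⟩ : ∃ d, d = dg F := ⟨_, rfl⟩
  obtain ⟨S₀, hS₀⟩ : ∃ S₀ : Finset K, S₀ = cs F ∪ c1 ((nf K).symm u) ∪
    Finset.univ.biUnion (fun t : Fin 4 => c1 (α t) ∪ c1 (β t) ∪ c1 (γ t)) := ⟨_, rfl⟩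
  have sF : cs F ⊆ S₀ := by
    intro x hx; rw [hS₀]; simp only [Finset.mem_union]; tauto
  have su : c1 ((nf K).symm u) ⊆ S₀ := by
    intro x hx; rw [hS₀]; simp only [Finset.mem_union]; tauto
  have sα : ∀ t, c1 (α t) ⊆ S₀ := by
    intro t x hx
    rw [hS₀]
    apply Finset.mem_union_right
    refine Finset.mem_biUnion.2 ⟨t, Finset.mem_univ _, ?_⟩
    simp only [Finset.mem_union]; tauto
  have sβ : ∀ t, c1 (β t) ⊆ S₀ := by
    intro t x hx
    rw [hS₀]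
    apply Finset.mem_union_right
    refine Finset.mem_biUnion.2 ⟨t, Finset.mem_univ _, ?_⟩
    simp only [Finset.mem_union]; tauto
  have sγ : ∀ t, c1 (γ t) ⊆ S₀ := by
    intro t x hx
    rw [hS₀]
    apply Finset.mem_union_right
    refine Finset.mem_biUnion.2 ⟨t, Finset.mem_univ _, ?_⟩
    simp only [Finset.mem_union]; tauto
  refine h1 K F (max d 3) S₀ (fun j m hm => sF (mem_cs F j m hm)) ?_
  intro p hp hDp C₀ σ hσ F₀ hF₀ j
  have hp2 : p ≠ 2 := by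
    have := (le_max_right d 3).trans hDp
    omega
  obtain ⟨c, hc⟩ : ∃ c : ZMod (p ^ 2) →+* ZMod p,
    c = ZMod.castHom (Dvd.intro_left p (by ring : p * p = p ^ 2)) (ZMod p) := ⟨_, rfl⟩
  rw [← hc]
  have hmem : ∀ s ∈ S₀, s ∈ C₀ := fun s hs => (hσ s hs).1
  have hinj : Function.Injective C₀.subtype := Subtype.val_injective
  have hl : ∀ A : MvPolynomial (Fin 2) K, c1 A ⊆ S₀ → ∃ A' : MvPolynomial (Fin 2) C₀,
      MvPolynomial.map C₀.subtype A' = A :=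
    fun A hA => exists_lift C₀ A fun m hm => hmem _ (hA (mem_c1 A m hm))
  obtain ⟨u₀, hu₀⟩ := hl _ su
  choose α₀ hα₀ using fun t => hl (α t) (sα t)
  choose β₀ hβ₀ using fun t => hl (β t) (sβ t)
  choose γ₀ hγ₀ using fun t => hl (γ t) (sγ t)
  have e0 : MvPolynomial.map C₀.subtype (F₀ 0) = F 0 := congrFun hF₀ 0
  have e1 : MvPolynomial.map C₀.subtype (F₀ 1) = F 1 := congrFun hF₀ 1
  -- relations over the subring
  have r0 : Rel4 (nf C₀ (F₀ 0)) (nf C₀ (F₀ 1)) (nf C₀ u₀) α₀ β₀ γ₀ := by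
    refine (h3 C₀ K C₀.subtype _ _ _ _ _ _).2 hinj ?_
    rw [mapW_nf, mapW_nf, mapW_nf, hu₀, (nf K).apply_symm_apply, e0, e1]
    have a1 : (fun t => MvPolynomial.map C₀.subtype (α₀ t)) = α := funext hα₀
    have a2 : (fun t => MvPolynomial.map C₀.subtype (β₀ t)) = β := funext hβ₀
    have a3 : (fun t => MvPolynomial.map C₀.subtype (γ₀ t)) = γ := funext hγ₀
    rw [a1, a2, a3]
    exact hrel
  -- relations modulo `p`
  have r1 := (h3 C₀ (ZMod p) (c.comp σ) _ _ _ _ _ _).1 r0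
  rw [mapW_nf, mapW_nf, mapW_nf] at r1
  have hfF : mp c (mp σ F₀) = mp (c.comp σ) F₀ := mp_mp σ c F₀
  have wF₀ : WP F₀ := by
    refine (h5 C₀ K C₀.subtype F₀ F₀).2.2.2 hinj ?_
    rw [hF₀]; exact wF
  have wf : WP (mp σ F₀) := (h5 C₀ (ZMod (p ^ 2)) σ F₀ F₀).2.2.1 wF₀
  have hdeg : ∀ i j, degreeOf i (mp (c.comp σ) F₀ j) ≤ d := by
    intro i j
    have e2 : degreeOf i (mp (c.comp σ) F₀ j) ≤ degreeOf i (F j) := by
      rw [← hF₀]
      exact deg_le C₀.subtype (c.comp σ) hinj (F₀ j) i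
    rw [hd]
    exact e2.trans (le_dg F i j)
  have hα' : ∀ t, MvPolynomial.map (c.comp σ) (α₀ t) ≠ 0 := by
    intro t h0
    obtain ⟨k, hk⟩ := MvPolynomial.ne_zero_iff.1 (hα t)
    have hkS : coeff k (α t) ∈ S₀ := sα t (mem_c1 (α t) k (mem_support_iff.2 hk))
    obtain ⟨hC, hunit⟩ := hσ _ hkS
    have hu := hunit hk
    have e3 : (⟨coeff k (α t), hC⟩ : C₀) = coeff k (α₀ t) := by
      apply Subtype.ext
      have e8 : coeff k (α t) = C₀.subtype (coeff k (α₀ t)) := by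
        rw [← coeff_map, hα₀]
      exact e8
    rw [e3] at hu
    have e6 : (c.comp σ) (coeff k (α₀ t)) = 0 := by
      rw [← coeff_map, h0, coeff_zero]
    have h7 : IsUnit (c (σ (coeff k (α₀ t)))) := hu.map c
    exact h7.ne_zero e6
  rw [hfF]
  have hsub : ZMod.castHom (Dvd.intro_left p (by ring : p * p = p ^ 2)) (ZMod p) = c := hc.symm
  obtain ⟨H, hH, hHd⟩ := h4 d p hp2 (mp σ F₀) (mp (c.comp σ) F₀) (nf (ZMod p) (MvPolynomial.map (c.comp σ) u₀))
    (fun t => MvPolynomial.map (c.comp σ) (α₀ t)) (fun t => MvPolynomial.map (c.comp σ) (β₀ t))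
    (fun t => MvPolynomial.map (c.comp σ) (γ₀ t)) wf (by rw [hsub, hfF]) hdeg hα' r1 j
  exact ⟨H, hH, fun i => (hHd i).trans (le_max_left _ _)⟩

end Pool.Agent.W800.DX
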